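import Pool.Agent.W_MP_0394fb_al.Main

set_option autoImplicit false

open CategoryTheory Pool.Agent.W_MP_0394fb_al

theorem Pool.Agent.Results.MP_0394fb_al.PreciseFormFails.result :
    (∃ (C : Type) (_ : Category.{0} C) (G : Coglob C), IsCoherator G) ∧
    ∀ (C : Type) [Category.{0} C] (G : Coglob C), IsCoherator G →
      Nonempty (Mor G disks) ∧ ∀ F : Mor G disks, ¬ StatementI F :=
  main
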